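import Pool.Agent.Q96.ME.SLL

set_option autoImplicit false

namespace Pool.Agent.Q96.ME

open Finset MeasureTheory Filter Pool.Agent.Q120.ET Pool.Agent.Q120.ME
open scoped Topology

variable {U : Set ℕ} {p d : ℕ → ℝ}

open Classical in
/-- Sums over `ind U x` as sums over `range x`. -/
theorem sum_ind (f : ℕ → ℝ) (x : ℕ) :
    ∑ n ∈ ind U x, f n = ∑ n ∈ range x, (if n ∈ U then f n else 0) := by
  rw [ind, sum_filter]

open Classical in
theorem mass_eq (x : ℕ) : mass U p x = ∑ n ∈ range x, (if n ∈ U then p n else 0) := sum_ind p x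

open Classical in
theorem mass_diff {a b : ℕ} (h : a ≤ b) :
    mass U p b = mass U p a + ∑ n ∈ Ico a b, (if n ∈ U then p n else 0) := by
  rw [mass_eq, mass_eq, sum_range_add_sum_Ico _ h]

theorem mass_mono (hR : Rates U p) : Monotone (mass U p) := by
  classical
  intro a b h
  rw [mass_diff h]
  have : 0 ≤ ∑ n ∈ Ico a b, (if n ∈ U then p n else 0) := sum_nonneg (fun n _ => by
    split_ifs with hn
    · exact (hR.pos n hn).le
    · exact le_rfl)
  linarith

theorem scales (hR : Rates U p) : ∃ y : ℕ → ℕ, StrictMono y ∧ (∀ j, (2 : ℝ) ^ j ≤ mass U p (y j)) ∧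
    (∀ j, mass U p (y j) ≤ 2 ^ j + 1) := by
  classical
  have hex : ∀ j : ℕ, ∃ N : ℕ, (2 : ℝ) ^ j ≤ mass U p N := fun j =>
    (hR.div.eventually_ge_atTop ((2 : ℝ) ^ j)).exists
  have h1 : ∀ j, (2 : ℝ) ^ j ≤ mass U p (Nat.find (hex j)) := fun j => Nat.find_spec (hex j)
  have h2 : ∀ j, mass U p (Nat.find (hex j)) < 2 ^ j + 1 := by
    intro j
    have h0 : Nat.find (hex j) ≠ 0 := by
      intro h
      have := h1 j
      rw [h, mass_eq] at this
      simp only [range_zero, sum_empty] at this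
      have : (0 : ℝ) < 2 ^ j := by positivity
      linarith
    obtain ⟨k, hk⟩ := Nat.exists_eq_succ_of_ne_zero h0
    have h3 : ¬ (2 : ℝ) ^ j ≤ mass U p k := Nat.find_min (hex j) (by omega)
    rw [hk, mass_diff (Nat.le_succ k), Nat.succ_eq_add_one, Nat.Ico_succ_singleton, sum_singleton]
    rw [not_le] at h3
    split_ifs with hn
    · have := hR.lt_one k hn
      linarith
    · linarith
  refine ⟨fun j => Nat.find (hex j), strictMono_nat_of_lt_succ (fun j => ?_), h1, fun j => (h2 j).le⟩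
  by_contra hcon
  rw [not_lt] at hcon
  have h3 := mass_mono hR hcon
  have h4 := h1 (j + 1)
  have h5 := h2 j
  have h6 : (1 : ℝ) ≤ 2 ^ j := one_le_pow₀ (by norm_num)
  have h7 : (2 : ℝ) ^ (j + 1) = 2 ^ j * 2 := pow_succ 2 j
  linarith

/-- The probabilities of the free blocks. -/
noncomputable def qq (d : ℕ → ℝ) (y : ℕ → ℕ) (J : ℕ) (j : ℕ) : ℝ :=
  if J ≤ j then min 1 ((d (y j) - d (y (j - 1))) / (4 * 2 ^ j)) else 0

section det

variable {y : ℕ → ℕ}

theorem qq_nonneg (hd : Monotone d) (hy : StrictMono y) (J j : ℕ) : 0 ≤ qq d y J j := by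
  unfold qq
  split_ifs
  · have : d (y (j - 1)) ≤ d (y j) := hd (hy.monotone (Nat.sub_le j 1))
    exact le_min zero_le_one (div_nonneg (by linarith) (by positivity))
  · exact le_rfl

theorem qq_le_one (J j : ℕ) : qq d y J j ≤ 1 := by
  unfold qq
  split_ifs
  · exact min_le_left _ _
  · exact zero_le_one

theorem qq_le (hd : Monotone d) (hy : StrictMono y) (J j : ℕ) :
    qq d y J j * (4 * 2 ^ j) ≤ d (y j) - d (y (j - 1)) := by
  have h0 : d (y (j - 1)) ≤ d (y j) := hd (hy.monotone (Nat.sub_le j 1))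
  unfold qq
  split_ifs
  · have h1 : min 1 ((d (y j) - d (y (j - 1))) / (4 * 2 ^ j)) ≤
      (d (y j) - d (y (j - 1))) / (4 * 2 ^ j) := min_le_right _ _
    rwa [le_div_iff₀ (by positivity)] at h1
  · rw [zero_mul]; linarith

theorem not_summable_qq (hR : Rates U p) (hd : Monotone d) (hd0 : ∀ n, 0 ≤ d n)
    (hC : ¬ Conv U p d) (hy : StrictMono y) (hy1 : ∀ j, (2 : ℝ) ^ j ≤ mass U p (y j))
    (hy2 : ∀ j, mass U p (y j) ≤ 2 ^ j + 1) (J : ℕ) : ¬ Summable (qq d y J) := by
  classical
  intro hs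
  apply hC
  -- the increments
  set c : ℕ → ℝ := fun j => (d (y j) - d (y (j - 1))) / 2 ^ j with hc
  have hc0 : ∀ j, 0 ≤ c j := fun j => by
    have : d (y (j - 1)) ≤ d (y j) := hd (hy.monotone (Nat.sub_le j 1))
    exact div_nonneg (by linarith) (by positivity)
  have hcs : Summable c := by
    obtain ⟨J1, hJ1⟩ := eventually_atTop.1 ((hs.tendsto_atTop_zero.eventually_lt_const
      zero_lt_one).and (eventually_ge_atTop J))
    refine (summable_nat_add_iff J1).1 ?_
    have h1 := ((summable_nat_add_iff J1).2 hs).mul_left 4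
    refine h1.congr (fun j => ?_)
    obtain ⟨h2, h3⟩ := hJ1 (j + J1) (by omega)
    have h4 : qq d y J (j + J1) = (d (y (j + J1)) - d (y (j + J1 - 1))) / (4 * 2 ^ (j + J1)) := by
      unfold qq at h2 ⊢
      rw [if_pos h3] at h2 ⊢
      rcases min_lt_iff.1 h2 with h5 | h5
      · exact absurd h5 (lt_irrefl _)
      · exact min_eq_right h5.le
    rw [h4]
    simp only [hc]
    field_simp
  have hDs : Summable (fun j : ℕ => d (y j) / 2 ^ j) := by
    have hcs1 := (summable_nat_add_iff 1).2 hcs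
    have hb : ∀ N : ℕ, ∑ j ∈ range N, d (y j) / 2 ^ j ≤ 2 * (d (y 0) + ∑' j : ℕ, c (j + 1)) := by
      have hE0 : 0 ≤ ∑' j : ℕ, c (j + 1) := tsum_nonneg (fun j => hc0 _)
      have hstep : ∀ N : ℕ, ∑ j ∈ range (N + 1), d (y j) / 2 ^ j =
          d (y 0) + (∑ j ∈ range N, d (y j) / 2 ^ j) / 2 + ∑ j ∈ range N, c (j + 1) := by
        intro N
        induction N with
        | zero => simp
        | succ N ih =>
          have e1 : ∑ j ∈ range (N + 1), d (y j) / 2 ^ j =
              ∑ j ∈ range N, d (y j) / 2 ^ j + d (y N) / 2 ^ N := sum_range_succ _ _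
          have e2 : c (N + 1) = d (y (N + 1)) / 2 ^ (N + 1) - d (y N) / 2 ^ (N + 1) := by
            simp only [hc, Nat.add_sub_cancel]
            rw [sub_div]
          have e3 : d (y N) / 2 ^ (N + 1) = d (y N) / 2 ^ N / 2 := by
            rw [pow_succ, div_div]
          rw [sum_range_succ (fun j => d (y j) / 2 ^ j) (N + 1), sum_range_succ (fun j => c (j + 1)) N]
          linarith
      intro N
      cases N with
      | zero =>
        rw [range_zero, sum_empty]
        have := hd0 (y 0)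
        linarith
      | succ N =>
        have h1 := hstep N
        have h2 : ∑ j ∈ range N, d (y j) / 2 ^ j ≤ ∑ j ∈ range (N + 1), d (y j) / 2 ^ j := by
          rw [sum_range_succ]
          have : 0 ≤ d (y N) / 2 ^ N := div_nonneg (hd0 _) (by positivity)
          linarith
        have h3 : ∑ j ∈ range N, c (j + 1) ≤ ∑' j : ℕ, c (j + 1) :=
          hcs1.sum_le_tsum _ (fun j _ => hc0 _)
        linarith
    exact summable_of_sum_range_le (fun j => div_nonneg (hd0 _) (by positivity)) hb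
  -- the condition
  unfold Conv
  set t : ℕ → ℝ := fun n => if n ∈ U then p n * d n / mass U p n ^ 2 else 0 with ht
  have ht0 : ∀ n, 0 ≤ t n := fun n => by
    simp only [ht]
    split_ifs with hn
    · exact div_nonneg (mul_nonneg (hR.pos n hn).le (hd0 n)) (by positivity)
    · exact le_rfl
  have hblock : ∀ j : ℕ, ∑ n ∈ Ico (y j) (y (j + 1)), t n ≤ 6 * (d (y (j + 1)) / 2 ^ (j + 1)) := by
    intro j
    have h2j : (0 : ℝ) < 2 ^ j := by positivity
    have h1 : ∀ n ∈ Ico (y j) (y (j + 1)),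
        t n ≤ d (y (j + 1)) / (2 ^ j) ^ 2 * (if n ∈ U then p n else 0) := by
      intro n hn
      rw [mem_Ico] at hn
      simp only [ht]
      split_ifs with hU
      · have h3 : d n ≤ d (y (j + 1)) := hd hn.2.le
        have h4 : (2 : ℝ) ^ j ≤ mass U p n := (hy1 j).trans (mass_mono hR hn.1)
        have h5 : ((2 : ℝ) ^ j) ^ 2 ≤ mass U p n ^ 2 := pow_le_pow_left₀ h2j.le h4 2
        rw [div_mul_eq_mul_div]
        refine div_le_div₀ (mul_nonneg (hd0 _) (hR.pos n hU).le) ?_ (by positivity) h5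
        rw [mul_comm]
        exact mul_le_mul_of_nonneg_right h3 (hR.pos n hU).le
      · simp
    refine (sum_le_sum h1).trans ?_
    rw [← mul_sum]
    have h2 := mass_diff (U := U) (p := p) (hy (Nat.lt_succ_self j)).le
    rw [Nat.succ_eq_add_one] at h2
    have h3 : ∑ n ∈ Ico (y j) (y (j + 1)), (if n ∈ U then p n else 0) ≤ 3 * 2 ^ j := by
      have h4 := hy1 j
      have h5 := hy2 (j + 1)
      have h6 : (1 : ℝ) ≤ 2 ^ j := one_le_pow₀ (by norm_num)
      rw [pow_succ] at h5
      linarith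
    have h4 : d (y (j + 1)) / (2 ^ j) ^ 2 * ∑ n ∈ Ico (y j) (y (j + 1)), (if n ∈ U then p n else 0) ≤
        d (y (j + 1)) / (2 ^ j) ^ 2 * (3 * 2 ^ j) :=
      mul_le_mul_of_nonneg_left h3 (div_nonneg (hd0 _) (by positivity))
    refine h4.trans (le_of_eq ?_)
    rw [pow_succ 2 j]
    field_simp
    ring
  have hDs1 := ((summable_nat_add_iff 1).2 hDs).mul_left 6
  have hT : ∀ N : ℕ, ∑ n ∈ range (y N), t n ≤ ∑ n ∈ range (y 0), t n +
      ∑ j ∈ range N, 6 * (d (y (j + 1)) / 2 ^ (j + 1)) := by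
    intro N
    induction N with
    | zero => simp
    | succ N ih =>
      rw [← sum_range_add_sum_Ico _ (hy (Nat.lt_succ_self N)).le, sum_range_succ]
      have := hblock N
      rw [Nat.succ_eq_add_one]
      linarith
  refine summable_of_sum_range_le (c := ∑ n ∈ range (y 0), t n +
      ∑' j : ℕ, 6 * (d (y (j + 1)) / 2 ^ (j + 1))) ht0 (fun N => ?_)
  have h1 : ∑ n ∈ range N, t n ≤ ∑ n ∈ range (y N), t n :=
    sum_le_sum_of_subset_of_nonneg (range_mono hy.le_apply) (fun n _ _ => ht0 n)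
  have h2 := hDs1.sum_le_tsum (range N) (fun j _ => by
    have := hd0 (y (j + 1))
    positivity)
  linarith [hT N]

/-- The block of `n`. -/
noncomputable def bl (y : ℕ → ℕ) (n : ℕ) : ℕ := Nat.findGreatest (fun j => y j ≤ n) n

theorem bl_eq (hy : StrictMono y) {n j : ℕ} (h1 : j ≠ 0 → y j ≤ n) (h2 : n < y (j + 1)) :
    bl y n = j := by
  rw [bl, Nat.findGreatest_eq_iff]
  refine ⟨?_, h1, fun k hk _ hcon => ?_⟩
  · rcases Nat.eq_zero_or_pos j with h | h
    · omega
    · exact (hy.le_apply).trans (h1 h.ne')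
  · have := hy.monotone (show j + 1 ≤ k from hk)
    omega

theorem lt_bl (hy : StrictMono y) (n : ℕ) : n < y (bl y n + 1) := by
  by_contra hcon
  rw [not_lt] at hcon
  have h1 : bl y n + 1 ≤ n := (hy.le_apply).trans hcon
  have := Nat.le_findGreatest (P := fun j => y j ≤ n) h1 hcon
  change bl y n + 1 ≤ bl y n at this
  omega

theorem bl_le {n : ℕ} (h : bl y n ≠ 0) : y (bl y n) ≤ n := by
  have := (Nat.findGreatest_eq_iff.1 (rfl : bl y n = bl y n)).2.1 h
  exact this

/-- The entropy of the construction. -/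
theorem ent_bound (hR : Rates U p) (hd : Monotone d) (hd0 : ∀ n, 0 ≤ d n) (hy : StrictMono y)
    (hy1 : ∀ j, (2 : ℝ) ^ j ≤ mass U p (y j)) (hy2 : ∀ j, mass U p (y j) ≤ 2 ^ j + 1) {J : ℕ}
    (hJ : 1 ≤ J) (x : ℕ) : ∑ n ∈ ind U x, 2 * qq d y J (bl y n) * p n ≤ d x := by
  classical
  set g : ℕ → ℝ := fun n => if n ∈ U then 2 * qq d y J (bl y n) * p n else 0 with hg
  have hg0 : ∀ n, 0 ≤ g n := fun n => by
    simp only [hg]
    split_ifs with hn
    · have h1 := qq_nonneg (J := J) (j := bl y n) hd hy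
      have h2 := hR.pos n hn
      positivity
    · exact le_rfl
  have hq0 : qq d y J 0 = 0 := by
    unfold qq
    rw [if_neg (by omega)]
  rw [sum_ind]
  have hA0 : ∑ n ∈ range (y 1), g n = 0 := by
    refine sum_eq_zero (fun n hn => ?_)
    rw [mem_range] at hn
    have h1 : bl y n = 0 := bl_eq hy (fun h => absurd rfl h) (by simpa using hn)
    simp only [hg, h1, hq0]
    simp
  have hA : ∀ j : ℕ, ∑ n ∈ range (y (j + 1)), g n ≤ d (y j) := by
    intro j
    induction j with
    | zero =>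
      rw [zero_add, hA0]
      exact hd0 _
    | succ j ih =>
      rw [← sum_range_add_sum_Ico _ (hy (Nat.lt_succ_self (j + 1))).le]
      have h1 : ∀ n ∈ Ico (y (j + 1)) (y (j + 1 + 1)),
          g n = 2 * qq d y J (j + 1) * (if n ∈ U then p n else 0) := by
        intro n hn
        rw [mem_Ico] at hn
        have h2 : bl y n = j + 1 := bl_eq hy (fun _ => hn.1) hn.2
        simp only [hg, h2]
        split_ifs <;> simp
      rw [sum_congr rfl h1, ← mul_sum]
      have h2 := mass_diff (U := U) (p := p) (hy (Nat.lt_succ_self (j + 1))).le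
      have h3 := hy1 (j + 1)
      have h4 := hy2 (j + 1 + 1)
      have h5 : (1 : ℝ) ≤ 2 ^ (j + 1) := one_le_pow₀ (by norm_num)
      have h6 := qq_le (J := J) (j := j + 1) hd hy
      rw [Nat.add_sub_cancel] at h6
      have h7 := qq_nonneg (J := J) (j := j + 1) hd hy
      rw [pow_succ 2 (j + 1)] at h4
      have h8 : ∑ n ∈ Ico (y (j + 1)) (y (j + 1 + 1)), (if n ∈ U then p n else 0) ≤
          2 * 2 ^ (j + 1) := by
        rw [Nat.succ_eq_add_one] at h2
        linarith
      have h9 := mul_le_mul_of_nonneg_left h8 (show 0 ≤ 2 * qq d y J (j + 1) by positivity)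
      nlinarith
  have hle : ∑ n ∈ range x, g n ≤ ∑ n ∈ range (y (bl y x + 1)), g n :=
    sum_le_sum_of_subset_of_nonneg (range_mono (lt_bl hy x).le) (fun n _ _ => hg0 n)
  by_cases h0 : bl y x = 0
  · rw [h0, zero_add, hA0] at hle
    exact hle.trans (hd0 x)
  · exact hle.trans ((hA _).trans (hd (bl_le h0)))

end det

theorem kl_zero (q : ℝ) : kl 0 q = -Real.log (1 - q) := by
  unfold kl
  rw [zero_mul, zero_add, sub_zero, one_mul, one_div, Real.log_inv]

theorem kl_self {q : ℝ} (h0 : 0 < q) (h1 : q < 1) : kl q q = 0 := by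
  unfold kl
  rw [div_self h0.ne', div_self (by linarith), Real.log_one, mul_zero, mul_zero, add_zero]

theorem neg_log_le {q : ℝ} (h0 : 0 < q) (h1 : q ≤ 1 / 2) : -Real.log (1 - q) ≤ 2 * q := by
  have h2 := Real.one_sub_inv_le_log_of_pos (show 0 < 1 - q by linarith)
  have h3 : (1 - q)⁻¹ ≤ 1 + 2 * q := by
    rw [inv_le_comm₀ (by linarith) (by linarith), ← one_div, div_le_iff₀ (by linarith)]
    nlinarith
  linarith

/-- Job ASL. -/
theorem t_ASL (hCON : J_CON) (hENM : J_ENM) : J_ASL := by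
  classical
  intro U p d hR hd hd0 hC
  obtain ⟨y, hy, hy1, hy2⟩ := scales hR
  -- the first block used
  obtain ⟨J, hJ1, hJ2⟩ : ∃ J : ℕ, 1 ≤ J ∧ ∀ n ∈ U, y J ≤ n → p n ≤ 1 / 2 := by
    obtain ⟨N, hN⟩ := eventually_atTop.1 (hR.small (1 / 2) (by norm_num))
    refine ⟨N + 1, by omega, fun n hn h => (hN n ?_ hn).le⟩
    have := hy.le_apply (x := N + 1)
    omega
  set q : ℕ → ℝ := qq d y J with hq
  have hq0 : ∀ j, 0 ≤ q j := fun j => qq_nonneg hd hy J j
  have hq1 : ∀ j, q j ≤ 1 := fun j => qq_le_one J j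
  have hqs : ¬ Summable q := not_summable_qq hR hd hd0 hC hy hy1 hy2 J
  -- the random set of free blocks
  obtain ⟨X, _, ν, _, Ξ, π', hX⟩ := hCON Unit (Measure.dirac ()) (fun _ => q)
    (fun n => measurable_const) (fun _ n => ⟨hq0 n, hq1 n⟩)
  have hΞlaw : ∀ F T : Finset ℕ, ν.real {x | ∀ n ∈ F, (n ∈ Ξ x ↔ n ∈ T)} = bern q F T := by
    intro F T
    have h1 := hX.law F T Set.univ MeasurableSet.univ
    simpa using h1
  have hΞ1 : ∀ j, ν.real {x | j ∈ Ξ x} = q j := by
    intro j
    have h1 := hΞlaw {j} {j}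
    simpa [bern] using h1
  -- the mixture
  set r : X → ℕ → ℝ := fun x n => if n ∈ U ∧ bl y n ∉ Ξ x then p n else 0 with hr
  have hrm : ∀ n, Measurable (fun x => r x n) := by
    intro n
    by_cases hn : n ∈ U
    · have h1 : (fun x => r x n) = fun x => if bl y n ∈ Ξ x then 0 else p n := by
        ext x
        simp only [hr]
        by_cases h : bl y n ∈ Ξ x
        · rw [if_neg (fun h' => h'.2 h), if_pos h]
        · rw [if_pos ⟨hn, h⟩, if_neg h]
      rw [h1]
      exact Measurable.ite (hX.rand _) measurable_const measurable_const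
    · have h1 : (fun x => r x n) = fun _ => 0 := by
        ext x
        simp only [hr]
        rw [if_neg (fun h' => hn h'.1)]
      rw [h1]
      exact measurable_const
  have hr01 : ∀ x n, 0 ≤ r x n ∧ r x n ≤ 1 := by
    intro x n
    simp only [hr]
    split_ifs with h
    · exact ⟨(hR.pos n h.1).le, (hR.lt_one n h.1).le⟩
    · exact ⟨le_rfl, zero_le_one⟩
  obtain ⟨Ω, _, μ, _, A, π, hM⟩ := hCON X ν r hrm hr01
  refine ⟨Ω, inferInstance, μ, inferInstance, A, hM.rand, Eventually.of_forall (fun x => ?_), ?_⟩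
  · -- the entropy
    obtain ⟨-, h1⟩ := hENM X ν r hrm hr01 Ω μ A π hM p (ind U x) (fun n hn => by
      have hnU : n ∈ U := by
        simp only [ind, mem_filter] at hn
        exact hn.2
      exact ⟨hR.pos n hnU, hR.lt_one n hnU⟩)
    refine h1.trans (le_trans ?_ (ent_bound hR hd hd0 hy hy1 hy2 hJ1 x))
    have h2 : ∀ n ∈ ind U x, ∀ z : X, kl (r z n) (p n) =
        ({z | bl y n ∈ Ξ z} : Set X).indicator (fun _ => -Real.log (1 - p n)) z := by
      intro n hn z
      have hnU : n ∈ U := by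
        simp only [ind, mem_filter] at hn
        exact hn.2
      by_cases h : bl y n ∈ Ξ z
      · rw [Set.indicator_of_mem (show z ∈ {z | bl y n ∈ Ξ z} from h)]
        have : r z n = 0 := by
          simp only [hr]
          rw [if_neg (fun h' => h'.2 h)]
        rw [this, kl_zero]
      · rw [Set.indicator_of_notMem (show z ∉ {z | bl y n ∈ Ξ z} from h)]
        have : r z n = p n := by
          simp only [hr]
          rw [if_pos ⟨hnU, h⟩]
        rw [this, kl_self (hR.pos n hnU) (hR.lt_one n hnU)]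
    have h3 : ∫ z, ∑ n ∈ ind U x, kl (r z n) (p n) ∂ν =
        ∑ n ∈ ind U x, q (bl y n) * -Real.log (1 - p n) := by
      have h4 : ∀ z, ∑ n ∈ ind U x, kl (r z n) (p n) = ∑ n ∈ ind U x,
          ({z | bl y n ∈ Ξ z} : Set X).indicator (fun _ => -Real.log (1 - p n)) z := fun z =>
        sum_congr rfl (fun n hn => h2 n hn z)
      simp only [h4]
      rw [integral_finsetSum _ (fun n _ => (integrable_const _).indicator (hX.rand _))]
      refine sum_congr rfl (fun n _ => ?_)
      rw [integral_indicator (hX.rand _), setIntegral_const, hΞ1, smul_eq_mul]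
    rw [h3]
    refine sum_le_sum (fun n hn => ?_)
    have hnU : n ∈ U := by
      simp only [ind, mem_filter] at hn
      exact hn.2
    by_cases hb : J ≤ bl y n
    · have h5 : p n ≤ 1 / 2 := hJ2 n hnU ((hy.monotone hb).trans (bl_le (by omega)))
      have h6 := neg_log_le (hR.pos n hnU) h5
      have h7 := mul_le_mul_of_nonneg_left h6 (hq0 (bl y n))
      calc q (bl y n) * -Real.log (1 - p n) ≤ q (bl y n) * (2 * p n) := h7
        _ = 2 * qq d y J (bl y n) * p n := by rw [hq]; ring
    · have h5 : q (bl y n) = 0 := by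
        rw [hq]
        unfold qq
        rw [if_neg hb]
      rw [h5, zero_mul]
      have h6 : qq d y J (bl y n) = 0 := h5
      rw [h6]
      simp
  · -- infinitely many blocks are free
    have hinf : ∀ᵐ x ∂ν, ∃ᶠ j : ℕ in atTop, j ∈ Ξ x := by
      have h1 : ProbabilityTheory.iIndepSet (fun j => {x | j ∈ Ξ x}) ν := by
        rw [ProbabilityTheory.iIndepSet_iff_meas_biInter (fun j => hX.rand j)]
        intro S
        have h2 := hΞlaw S S
        have h3 : {x | ∀ n ∈ S, (n ∈ Ξ x ↔ n ∈ S)} = ⋂ i ∈ S, {x | i ∈ Ξ x} := by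
          ext x
          simp only [Set.mem_ofPred_eq, Set.mem_iInter]
          exact forall₂_congr (fun n hn => by simp [hn])
        rw [h3] at h2
        have h4 : bern q S S = ∏ i ∈ S, ν.real {x | i ∈ Ξ x} := by
          unfold bern
          refine prod_congr rfl (fun n hn => ?_)
          rw [if_pos hn, hΞ1]
        rw [h4] at h2
        have h5 := congrArg ENNReal.ofReal h2
        rw [Measure.real, ENNReal.ofReal_toReal (measure_ne_top _ _),
          ENNReal.ofReal_prod_of_nonneg (fun i _ => measureReal_nonneg)] at h5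
        rw [h5]
        refine prod_congr rfl (fun i _ => ?_)
        rw [Measure.real, ENNReal.ofReal_toReal (measure_ne_top _ _)]
      have h2 : ∑' j : ℕ, ν {x | j ∈ Ξ x} = ⊤ := by
        by_contra hcon
        apply hqs
        have h3 := ENNReal.summable_toReal hcon
        refine h3.congr (fun j => ?_)
        exact hΞ1 j
      have h3 := ProbabilityTheory.measure_limsup_eq_one (fun j => hX.rand j) h1 h2
      have h4 : MeasurableSet (limsup (fun j => {x | j ∈ Ξ x}) atTop) :=
        MeasurableSet.measurableSet_limsup (fun j => hX.rand j)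
      have h5 := (mem_ae_iff_prob_eq_one h4).2 h3
      filter_upwards [h5] with x hx
      rw [mem_limsup_iff_frequently_mem] at hx
      exact hx
    have hinf' : ∀ᵐ ω ∂μ, ∃ᶠ j : ℕ in atTop, j ∈ Ξ (π ω) := by
      have h : ∀ᵐ x ∂(μ.map π), ∃ᶠ j : ℕ in atTop, j ∈ Ξ x := by
        rw [hM.map]
        exact hinf
      exact ae_of_ae_map hM.meas.aemeasurable h
    have hnull : ∀ᵐ ω ∂μ, ∀ n, n ∈ A ω → bl y n ∉ Ξ (π ω) := by
      rw [ae_all_iff]
      intro n
      have h1 := law_one hM n {x | bl y n ∈ Ξ x} (hX.rand _)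
      have h2 : ∫ x in {x | bl y n ∈ Ξ x}, r x n ∂ν = 0 := by
        rw [setIntegral_congr_fun (g := fun _ => (0 : ℝ)) (hX.rand _)]
        · simp
        · intro x hx
          simp only [hr]
          exact if_neg (fun h' => h'.2 hx)
      rw [h2, measureReal_eq_zero_iff] at h1
      rw [ae_iff]
      refine measure_mono_null (fun ω hω => ?_) h1
      simp only [Set.mem_ofPred_eq, Classical.not_imp, not_not] at hω
      exact hω
    filter_upwards [hinf', hnull] with ω h1 h2 hlim
    -- the count does not change on a free block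
    have hcnt : ∀ j, j ∈ Ξ (π ω) → 1 ≤ j → cnt U (A ω) (y (j + 1)) = cnt U (A ω) (y j) := by
      intro j hj hj1
      unfold cnt
      congr 1
      ext n
      simp only [mem_filter, ind, mem_range]
      constructor
      · rintro ⟨⟨h3, h4⟩, h5⟩
        refine ⟨⟨?_, h4⟩, h5⟩
        by_contra hcon
        rw [not_lt] at hcon
        have h6 : bl y n = j := bl_eq hy (fun _ => hcon) h3
        exact h2 n h5 (h6 ▸ hj)
      · rintro ⟨⟨h3, h4⟩, h5⟩
        exact ⟨⟨h3.trans (hy (Nat.lt_succ_self j)), h4⟩, h5⟩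
    have hyt : Tendsto y atTop atTop := hy.tendsto_atTop
    have h3 : ∀ᶠ N : ℕ in atTop, 9 / 10 < (cnt U (A ω) N : ℝ) / mass U p N ∧
        (cnt U (A ω) N : ℝ) / mass U p N < 11 / 10 :=
      (hlim.eventually_const_lt (by norm_num)).and (hlim.eventually_lt_const (by norm_num))
    have h4 := (hyt.eventually h3).and (((hyt.comp (tendsto_add_atTop_nat 1)).eventually h3).and
      (eventually_ge_atTop 1))
    obtain ⟨j, hj, ⟨h5, h6⟩, ⟨h7, h8⟩, h9⟩ := (h1.and_eventually h4).exists
    simp only [Function.comp_apply] at h7 h8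
    have e1 := hcnt j hj h9
    rw [e1] at h7
    have m1 := hy1 j
    have m2 := hy2 j
    have m3 := hy1 (j + 1)
    have m4 : (2 : ℝ) ≤ 2 ^ j := by
      calc (2 : ℝ) = 2 ^ 1 := by norm_num
        _ ≤ 2 ^ j := pow_le_pow_right₀ (by norm_num) h9
    have m5 : (2 : ℝ) ^ (j + 1) = 2 ^ j * 2 := pow_succ 2 j
    have m6 : 0 < mass U p (y j) := by linarith
    have m7 : 0 < mass U p (y (j + 1)) := by linarith
    rw [lt_div_iff₀ m7] at h7
    rw [div_lt_iff₀ m6] at h6
    linarith

end Pool.Agent.Q96.ME
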