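import Pool.Agent.Q120.ME.Stm

set_option autoImplicit false

namespace Pool.Agent.Q96.ME

open Finset MeasureTheory Filter Pool.Agent.Q120.ET Pool.Agent.Q120.ME
open scoped Topology

/-- Interpolation between the scales `y j`. -/
theorem interp {c Λ : ℕ → ℝ} {y : ℕ → ℕ} {a C : ℝ} (hc : Monotone c) (hc0 : ∀ n, 0 ≤ c n)
    (hΛ : Monotone Λ) (hΛt : Tendsto Λ atTop atTop) (hy1 : ∀ j : ℕ, (j : ℝ) ^ 2 ≤ Λ (y j))
    (hy2 : ∀ (j : ℕ) (N : ℕ), (j : ℝ) ^ 2 ≤ Λ N → y j ≤ N)
    (hy3 : ∀ᶠ j : ℕ in atTop, Λ (y j) ≤ (j : ℝ) ^ 2 + C)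
    (hlim : Tendsto (fun j : ℕ => c (y j) / Λ (y j)) atTop (𝓝 a)) :
    Tendsto (fun N : ℕ => c N / Λ N) atTop (𝓝 a) := by
  have hsq : Tendsto (fun j : ℕ => (j : ℝ) ^ 2) atTop atTop :=
    (tendsto_pow_atTop (by norm_num)).comp tendsto_natCast_atTop_atTop
  have hρ : Tendsto (fun j : ℕ => Λ (y j) / (j : ℝ) ^ 2) atTop (𝓝 1) := by
    have h1 : Tendsto (fun j : ℕ => 1 + C / (j : ℝ) ^ 2) atTop (𝓝 (1 + 0)) :=
      tendsto_const_nhds.add (hsq.const_div_atTop C)
    rw [add_zero] at h1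
    refine tendsto_of_tendsto_of_tendsto_of_le_of_le' tendsto_const_nhds h1 ?_ ?_
    · filter_upwards [eventually_ge_atTop 1] with j hj
      have hj' : (0 : ℝ) < (j : ℝ) ^ 2 := by
        have : (1 : ℝ) ≤ j := by exact_mod_cast hj
        positivity
      rw [le_div_iff₀ hj', one_mul]
      exact hy1 j
    · filter_upwards [eventually_ge_atTop 1, hy3] with j hj h3
      have hj' : (0 : ℝ) < (j : ℝ) ^ 2 := by
        have : (1 : ℝ) ≤ j := by exact_mod_cast hj
        positivity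
      rw [div_le_iff₀ hj']
      have : (1 + C / (j : ℝ) ^ 2) * (j : ℝ) ^ 2 = (j : ℝ) ^ 2 + C := by
        field_simp
      rw [this]
      exact h3
  have hρ1 : Tendsto (fun j : ℕ => Λ (y (j + 1)) / ((j : ℝ) + 1) ^ 2) atTop (𝓝 1) := by
    have := hρ.comp (tendsto_add_atTop_nat 1)
    refine this.congr (fun j => ?_)
    simp
  have hj1 : Tendsto (fun j : ℕ => ((j : ℝ) / ((j : ℝ) + 1)) ^ 2) atTop (𝓝 1) := by
    have := (tendsto_natCast_div_add_atTop (1 : ℝ)).pow 2
    simpa using this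
  have hr : Tendsto (fun j : ℕ => Λ (y j) / Λ (y (j + 1))) atTop (𝓝 1) := by
    have h1 : Tendsto (fun j : ℕ => (Λ (y j) / (j : ℝ) ^ 2) / (Λ (y (j + 1)) / ((j : ℝ) + 1) ^ 2) *
        ((j : ℝ) / ((j : ℝ) + 1)) ^ 2) atTop (𝓝 (1 / 1 * 1)) :=
      (hρ.div hρ1 one_ne_zero).mul hj1
    rw [one_div_one, one_mul] at h1
    refine h1.congr' ?_
    filter_upwards [eventually_ge_atTop 1] with j hj
    have hj' : (1 : ℝ) ≤ j := by exact_mod_cast hj
    have h2 : 0 < Λ (y (j + 1)) := by
      have := hy1 (j + 1)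
      push_cast at this
      nlinarith
    have h3 : (j : ℝ) ≠ 0 := by positivity
    have h4 : (j : ℝ) + 1 ≠ 0 := by positivity
    field_simp
  have hr' : Tendsto (fun j : ℕ => Λ (y (j + 1)) / Λ (y j)) atTop (𝓝 1) := by
    have h1 := hr.inv₀ one_ne_zero
    rw [inv_one] at h1
    refine h1.congr (fun j => ?_)
    rw [inv_div]
  have hlow : Tendsto (fun j : ℕ => c (y j) / Λ (y (j + 1))) atTop (𝓝 a) := by
    have h1 := hlim.mul hr
    rw [mul_one] at h1
    refine h1.congr' ?_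
    filter_upwards [eventually_ge_atTop 1] with j hj
    have hj' : (1 : ℝ) ≤ j := by exact_mod_cast hj
    have h2 : Λ (y j) ≠ 0 := by
      have := hy1 j
      have : 0 < Λ (y j) := by nlinarith
      exact this.ne'
    field_simp
  have hup : Tendsto (fun j : ℕ => c (y (j + 1)) / Λ (y j)) atTop (𝓝 a) := by
    have h1 := (hlim.comp (tendsto_add_atTop_nat 1)).mul hr'
    rw [mul_one] at h1
    refine h1.congr' ?_
    filter_upwards [eventually_ge_atTop 1] with j hj
    have h2 : Λ (y (j + 1)) ≠ 0 := by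
      have := hy1 (j + 1)
      push_cast at this
      have hj' : (1 : ℝ) ≤ j := by exact_mod_cast hj
      have : 0 < Λ (y (j + 1)) := by nlinarith
      exact this.ne'
    simp only [Function.comp_apply]
    field_simp
  have hJ : Tendsto (fun N : ℕ => ⌊√(Λ N)⌋₊) atTop atTop :=
    tendsto_nat_floor_atTop.comp (Real.tendsto_sqrt_atTop.comp hΛt)
  refine tendsto_of_tendsto_of_tendsto_of_le_of_le' (hlow.comp hJ) (hup.comp hJ) ?_ ?_
  all_goals
    filter_upwards [hJ.eventually_ge_atTop 1, hΛt.eventually_gt_atTop 0] with N hN hΛN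
    set j := ⌊√(Λ N)⌋₊ with hj
    have h1 : (j : ℝ) ≤ √(Λ N) := Nat.floor_le (Real.sqrt_nonneg _)
    have h2 : √(Λ N) < (j : ℝ) + 1 := Nat.lt_floor_add_one _
    have h3 : √(Λ N) ^ 2 = Λ N := Real.sq_sqrt hΛN.le
    have h4 : y j ≤ N := hy2 j N (by
      rw [← h3]
      exact pow_le_pow_left₀ (Nat.cast_nonneg _) h1 2)
    have h5 : N ≤ y (j + 1) := by
      by_contra hcon
      rw [not_le] at hcon
      have h6 := (hy1 (j + 1)).trans (hΛ hcon.le)
      push_cast at h6
      rw [← h3] at h6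
      have := lt_of_pow_lt_pow_left₀ 2 (by positivity) (lt_of_lt_of_le (pow_lt_pow_left₀ h2 (Real.sqrt_nonneg _) (by norm_num)) h6)
      exact lt_irrefl _ this
    have hj' : (1 : ℝ) ≤ j := by exact_mod_cast hN
    have h6 : 0 < Λ (y j) := by
      have := hy1 j
      nlinarith
    simp only [Function.comp_apply, ← hj]
  · have h7 : 0 < Λ (y (j + 1)) := hΛN.trans_le (hΛ h5)
    exact div_le_div₀ (hc0 N) (hc h4) hΛN (hΛ h5)
  · exact div_le_div₀ (hc0 _) (hc h5) h6 (hΛ h4)

variable {X : Type} [MeasurableSpace X] {ν : Measure X} [IsProbabilityMeasure ν] {r : X → ℕ → ℝ}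
  {Ω : Type} [MeasurableSpace Ω] {μ : Measure Ω} [IsProbabilityMeasure μ] {A : Ω → Set ℕ} {π : Ω → X}

omit [IsProbabilityMeasure μ] in
/-- Integrals over an event whose conditional probability given `π` is `ρ`. -/
theorem int_set [IsFiniteMeasure μ] (hπ : Measurable π) {S : Set Ω} (hS : MeasurableSet S) {ρ : X → ℝ}
    (hρ : Measurable ρ) (h0 : ∀ x, 0 ≤ ρ x) (h1 : ∀ x, ρ x ≤ 1)
    (hlaw : ∀ B, MeasurableSet B → μ.real (S ∩ π ⁻¹' B) = ∫ x in B, ρ x ∂ν) {g : X → ℝ}
    (hg : Measurable g) :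
    ∫ ω, S.indicator (fun ω => g (π ω)) ω ∂μ = ∫ x, ρ x * g x ∂ν := by
  have hm : (μ.restrict S).map π = ν.withDensity (fun x => ENNReal.ofReal (ρ x)) := by
    ext B hB
    rw [Measure.map_apply hπ hB, Measure.restrict_apply (hπ hB), withDensity_apply _ hB,
      ← ofReal_integral_eq_lintegral_ofReal, ← hlaw B hB, Measure.real, ENNReal.ofReal_toReal
      (measure_ne_top _ _), Set.inter_comm]
    · exact (Integrable.of_bound hρ.aestronglyMeasurable 1 (Eventually.of_forall (fun x => by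
        rw [Real.norm_eq_abs, abs_of_nonneg (h0 x)]; exact h1 x))).integrableOn
    · exact Eventually.of_forall h0
  rw [integral_indicator hS, ← integral_map (μ := μ.restrict S) hπ.aemeasurable
    hg.aestronglyMeasurable, hm, integral_withDensity_eq_integral_toReal_smul
    (hρ.ennreal_ofReal) (Eventually.of_forall (fun x => ENNReal.ofReal_lt_top))]
  refine integral_congr_ae (Eventually.of_forall (fun x => ?_))
  simp only [ENNReal.toReal_ofReal (h0 x), smul_eq_mul]

open Classical in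
/-- The indicator of `n ∈ A`. -/
noncomputable def chi (A : Ω → Set ℕ) (n : ℕ) (ω : Ω) : ℝ := if n ∈ A ω then 1 else 0

omit [MeasurableSpace Ω] in
theorem chi_nonneg (n : ℕ) (ω : Ω) : 0 ≤ chi A n ω := by
  unfold chi; split_ifs <;> norm_num

omit [MeasurableSpace Ω] in
theorem chi_le (n : ℕ) (ω : Ω) : chi A n ω ≤ 1 := by
  unfold chi; split_ifs <;> norm_num

omit [MeasurableSpace Ω] in
theorem chi_eq (n : ℕ) : chi A n = Set.indicator {ω | n ∈ A ω} (fun _ => (1 : ℝ)) := by
  classical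
  ext ω
  simp [chi, Set.indicator_apply]

theorem chi_meas (hA : IsRandomSet A) (n : ℕ) : Measurable (chi A n) := by
  rw [chi_eq]
  exact measurable_const.indicator (hA n)

/-- The deviation from the conditional expectation. -/
noncomputable def dev (A : Ω → Set ℕ) (π : Ω → X) (r : X → ℕ → ℝ) (n : ℕ) (ω : Ω) : ℝ :=
  chi A n ω - r (π ω) n

omit [IsProbabilityMeasure ν] [IsProbabilityMeasure μ] in
theorem law_one (hM : Mixed ν r μ A π) (n : ℕ) (B : Set X) (hB : MeasurableSet B) :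
    μ.real ({ω | n ∈ A ω} ∩ π ⁻¹' B) = ∫ x in B, r x n ∂ν := by
  have h1 := hM.law {n} {n} B hB
  simpa [bern] using h1

omit [IsProbabilityMeasure ν] [IsProbabilityMeasure μ] in
theorem law_two (hM : Mixed ν r μ A π) {n m : ℕ} (hnm : n ≠ m) (B : Set X) (hB : MeasurableSet B) :
    μ.real (({ω | n ∈ A ω} ∩ {ω | m ∈ A ω}) ∩ π ⁻¹' B) = ∫ x in B, r x n * r x m ∂ν := by
  have h1 := hM.law {n, m} {n, m} B hB
  have h2 : {ω | ∀ k ∈ ({n, m} : Finset ℕ), (k ∈ A ω ↔ k ∈ ({n, m} : Finset ℕ))} =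
      {ω | n ∈ A ω} ∩ {ω | m ∈ A ω} := by
    ext ω
    simp
  have h3 : ∀ x, bern (r x) {n, m} {n, m} = r x n * r x m := by
    intro x
    rw [bern, prod_insert (by simpa using hnm), prod_singleton]
    simp
  rw [h2] at h1
  simp only [h3] at h1
  exact h1

omit [IsProbabilityMeasure μ] in
theorem int4 {f g h k : Ω → ℝ} (hf : Integrable f μ) (hg : Integrable g μ) (hh : Integrable h μ)
    (hk : Integrable k μ) :
    ∫ ω, (f ω - g ω - h ω + k ω) ∂μ = ∫ ω, f ω ∂μ - ∫ ω, g ω ∂μ - ∫ ω, h ω ∂μ + ∫ ω, k ω ∂μ := by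
  rw [integral_add (f := fun ω => f ω - g ω - h ω) ((hf.sub hg).sub hh) hk,
    integral_sub (f := fun ω => f ω - g ω) (hf.sub hg) hh, integral_sub hf hg]

/-- The conditional covariances vanish. -/
theorem cov_eq (hM : Mixed ν r μ A π) (hr : ∀ n, Measurable (fun x => r x n))
    (h01 : ∀ x n, 0 ≤ r x n ∧ r x n ≤ 1) {b : X → ℝ} (hb : Measurable b) (hb1 : ∀ x, |b x| ≤ 1)
    (n m : ℕ) :
    ∫ ω, b (π ω) * (dev A π r n ω * dev A π r m ω) ∂μ =
      if n = m then ∫ x, b x * (r x n * (1 - r x n)) ∂ν else 0 := by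
  classical
  have hrn := hr n
  have hrm := hr m
  have hAn := hM.rand n
  have hAm := hM.rand m
  have hπ := hM.meas
  -- integrability of bounded measurable functions
  have hI : ∀ f : Ω → ℝ, Measurable f → (∀ ω, |f ω| ≤ 1) → Integrable f μ := fun f hf hf1 =>
    Integrable.of_bound hf.aestronglyMeasurable 1 (Eventually.of_forall hf1)
  have hI' : ∀ f : X → ℝ, Measurable f → (∀ ω, |f ω| ≤ 1) → Integrable f ν := fun f hf hf1 =>
    Integrable.of_bound hf.aestronglyMeasurable 1 (Eventually.of_forall hf1)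
  have hrle : ∀ x k, |r x k| ≤ 1 := fun x k => by
    rw [abs_of_nonneg (h01 x k).1]; exact (h01 x k).2
  have hcle : ∀ k ω, |chi A k ω| ≤ 1 := fun k ω => by
    rw [abs_of_nonneg (chi_nonneg k ω)]; exact chi_le k ω
  have hmul : ∀ u v : ℝ, |u| ≤ 1 → |v| ≤ 1 → |u * v| ≤ 1 := fun u v hu hv => by
    rw [abs_mul]; exact mul_le_one₀ hu (abs_nonneg _) hv
  have hcn := chi_meas hM.rand n
  have hcm := chi_meas hM.rand m
  have e : ∀ ω, b (π ω) * (dev A π r n ω * dev A π r m ω) =
      b (π ω) * (chi A n ω * chi A m ω) - b (π ω) * (chi A n ω * r (π ω) m) -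
        b (π ω) * (chi A m ω * r (π ω) n) + b (π ω) * (r (π ω) n * r (π ω) m) := by
    intro ω
    unfold dev
    ring
  have i1 : Integrable (fun ω => b (π ω) * (chi A n ω * chi A m ω)) μ :=
    hI _ ((hb.comp hπ).mul (hcn.mul hcm)) (fun ω => hmul _ _ (hb1 _) (hmul _ _ (hcle _ _) (hcle _ _)))
  have i2 : Integrable (fun ω => b (π ω) * (chi A n ω * r (π ω) m)) μ :=
    hI _ ((hb.comp hπ).mul (hcn.mul (hrm.comp hπ)))
      (fun ω => hmul _ _ (hb1 _) (hmul _ _ (hcle _ _) (hrle _ _)))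
  have i3 : Integrable (fun ω => b (π ω) * (chi A m ω * r (π ω) n)) μ :=
    hI _ ((hb.comp hπ).mul (hcm.mul (hrn.comp hπ)))
      (fun ω => hmul _ _ (hb1 _) (hmul _ _ (hcle _ _) (hrle _ _)))
  have i4 : Integrable (fun ω => b (π ω) * (r (π ω) n * r (π ω) m)) μ :=
    hI _ ((hb.comp hπ).mul ((hrn.comp hπ).mul (hrm.comp hπ)))
      (fun ω => hmul _ _ (hb1 _) (hmul _ _ (hrle _ _) (hrle _ _)))
  have j1 : ∫ ω, b (π ω) * (chi A n ω * chi A m ω) ∂μ =
      if n = m then ∫ x, r x n * b x ∂ν else ∫ x, r x n * r x m * b x ∂ν := by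
    by_cases hnm : n = m
    · subst hnm
      rw [if_pos rfl, ← int_set hπ hAn hrn (fun x => (h01 x n).1) (fun x => (h01 x n).2)
        (law_one hM n) hb]
      refine integral_congr_ae (Eventually.of_forall (fun ω => ?_))
      simp only [chi, Set.indicator_apply, Set.mem_ofPred_eq]
      split_ifs <;> simp
    · rw [if_neg hnm, ← int_set (ρ := fun x => r x n * r x m) (g := b) hπ (hAn.inter hAm) (hrn.mul hrm)
        (fun x => mul_nonneg (h01 x n).1 (h01 x m).1)
        (fun x => mul_le_one₀ (h01 x n).2 (h01 x m).1 (h01 x m).2)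
        (law_two hM hnm) hb]
      refine integral_congr_ae (Eventually.of_forall (fun ω => ?_))
      simp only [chi, Set.indicator_apply, Set.mem_inter_iff, Set.mem_ofPred_eq]
      by_cases h1 : n ∈ A ω <;> by_cases h2 : m ∈ A ω <;> simp [h1, h2]
  have j2 : ∫ ω, b (π ω) * (chi A n ω * r (π ω) m) ∂μ = ∫ x, r x n * (b x * r x m) ∂ν := by
    rw [← int_set (g := fun x => b x * r x m) hπ hAn hrn (fun x => (h01 x n).1)
      (fun x => (h01 x n).2) (law_one hM n) (hb.mul hrm)]
    refine integral_congr_ae (Eventually.of_forall (fun ω => ?_))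
    simp only [chi, Set.indicator_apply, Set.mem_ofPred_eq]
    split_ifs <;> simp
  have j3 : ∫ ω, b (π ω) * (chi A m ω * r (π ω) n) ∂μ = ∫ x, r x m * (b x * r x n) ∂ν := by
    rw [← int_set (g := fun x => b x * r x n) hπ hAm hrm (fun x => (h01 x m).1)
      (fun x => (h01 x m).2) (law_one hM m) (hb.mul hrn)]
    refine integral_congr_ae (Eventually.of_forall (fun ω => ?_))
    simp only [chi, Set.indicator_apply, Set.mem_ofPred_eq]
    split_ifs <;> simp
  have j4 : ∫ ω, b (π ω) * (r (π ω) n * r (π ω) m) ∂μ = ∫ x, b x * (r x n * r x m) ∂ν := by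
    rw [← hM.map]
    exact (integral_map hπ.aemeasurable (hb.mul (hrn.mul hrm)).aestronglyMeasurable).symm
  simp only [e]
  rw [int4 i1 i2 i3 i4, j1, j2, j3, j4]
  have k1 : ∫ x, r x n * r x m * b x ∂ν = ∫ x, b x * (r x n * r x m) ∂ν :=
    integral_congr_ae (Eventually.of_forall (fun x => by ring))
  have k2 : ∫ x, r x n * (b x * r x m) ∂ν = ∫ x, b x * (r x n * r x m) ∂ν :=
    integral_congr_ae (Eventually.of_forall (fun x => by ring))
  have k3 : ∫ x, r x m * (b x * r x n) ∂ν = ∫ x, b x * (r x n * r x m) ∂ν :=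
    integral_congr_ae (Eventually.of_forall (fun x => by ring))
  by_cases hnm : n = m
  · subst hnm
    rw [if_pos rfl, if_pos rfl, k2]
    have l1 : Integrable (fun x => r x n * b x) ν :=
      hI' _ (hrn.mul hb) (fun x => hmul _ _ (hrle _ _) (hb1 _))
    have l2 : Integrable (fun x => b x * (r x n * r x n)) ν :=
      hI' _ (hb.mul (hrn.mul hrn)) (fun x => hmul _ _ (hb1 _) (hmul _ _ (hrle _ _) (hrle _ _)))
    have l3 : ∫ x, b x * (r x n * (1 - r x n)) ∂ν =
        ∫ x, r x n * b x ∂ν - ∫ x, b x * (r x n * r x n) ∂ν := by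
      rw [← integral_sub l1 l2]
      exact integral_congr_ae (Eventually.of_forall (fun x => by ring))
    rw [l3]
    ring
  · rw [if_neg hnm, if_neg hnm, k1, k2, k3]
    ring

/-- The conditional second moment of the deviation of the count. -/
theorem second (hM : Mixed ν r μ A π) (hr : ∀ n, Measurable (fun x => r x n))
    (h01 : ∀ x n, 0 ≤ r x n ∧ r x n ≤ 1) {B : Set X} (hB : MeasurableSet B) (F : Finset ℕ) {M : ℝ}
    (hM0 : 0 ≤ M) (hBM : ∀ x ∈ B, ∑ n ∈ F, r x n ≤ M) :
    ∫⁻ ω in π ⁻¹' B, ENNReal.ofReal ((∑ n ∈ F, dev A π r n ω) ^ 2) ∂μ ≤ ENNReal.ofReal M := by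
  classical
  have hπ := hM.meas
  have hb : Measurable (B.indicator (fun _ : X => (1 : ℝ))) := measurable_const.indicator hB
  have hb1 : ∀ x, |B.indicator (fun _ : X => (1 : ℝ)) x| ≤ 1 := fun x => by
    rw [Set.indicator_apply]; split_ifs <;> simp
  have hdm : ∀ n, Measurable (dev A π r n) := fun n =>
    (chi_meas hM.rand n).sub ((hr n).comp hπ)
  have hd1 : ∀ n ω, |dev A π r n ω| ≤ 1 := fun n ω => by
    have h1 := chi_nonneg (A := A) n ω
    have h2 := chi_le (A := A) n ω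
    have h3 := h01 (π ω) n
    unfold dev
    rw [abs_le]
    constructor <;> linarith
  have hI : ∀ n m, Integrable (fun ω => B.indicator (fun _ : X => (1 : ℝ)) (π ω) *
      (dev A π r n ω * dev A π r m ω)) μ := fun n m =>
    Integrable.of_bound ((hb.comp hπ).mul ((hdm n).mul (hdm m))).aestronglyMeasurable 1
      (Eventually.of_forall (fun ω => by
        change |_| ≤ 1
        rw [abs_mul, abs_mul]
        exact mul_le_one₀ (hb1 _) (by positivity) (mul_le_one₀ (hd1 _ _) (abs_nonneg _) (hd1 _ _))))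
  have e1 : ∀ ω, B.indicator (fun _ : X => (1 : ℝ)) (π ω) * (∑ n ∈ F, dev A π r n ω) ^ 2 =
      ∑ n ∈ F, ∑ m ∈ F, B.indicator (fun _ : X => (1 : ℝ)) (π ω) *
        (dev A π r n ω * dev A π r m ω) := by
    intro ω
    rw [pow_two, sum_mul_sum, mul_sum]
    exact sum_congr rfl (fun n _ => mul_sum _ _ _)
  have hI2 : Integrable (fun ω => B.indicator (fun _ : X => (1 : ℝ)) (π ω) *
      (∑ n ∈ F, dev A π r n ω) ^ 2) μ := by
    simp only [e1]
    exact integrable_finsetSum _ (fun n _ => integrable_finsetSum _ (fun m _ => hI n m))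
  have e2 : ∫ ω, B.indicator (fun _ : X => (1 : ℝ)) (π ω) * (∑ n ∈ F, dev A π r n ω) ^ 2 ∂μ =
      ∑ n ∈ F, ∫ x, B.indicator (fun _ : X => (1 : ℝ)) x * (r x n * (1 - r x n)) ∂ν := by
    simp only [e1]
    rw [integral_finsetSum _ (fun n _ => integrable_finsetSum _ (fun m _ => hI n m))]
    refine sum_congr rfl (fun n hn => ?_)
    rw [integral_finsetSum _ (fun m _ => hI n m)]
    simp only [cov_eq hM hr h01 hb hb1]
    rw [sum_ite_eq, if_pos hn]
  have hJ : ∀ n, Integrable (fun x => B.indicator (fun _ : X => (1 : ℝ)) x *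
      (r x n * (1 - r x n))) ν := fun n =>
    Integrable.of_bound (hb.mul ((hr n).mul (measurable_const.sub (hr n)))).aestronglyMeasurable 1
      (Eventually.of_forall (fun x => by
        have h3 := h01 x n
        change |_| ≤ 1
        rw [abs_mul, abs_of_nonneg (mul_nonneg h3.1 (sub_nonneg.2 h3.2))]
        exact mul_le_one₀ (hb1 _) (mul_nonneg h3.1 (sub_nonneg.2 h3.2)) (by nlinarith)))
  have e3 : ∑ n ∈ F, ∫ x, B.indicator (fun _ : X => (1 : ℝ)) x * (r x n * (1 - r x n)) ∂ν ≤ M := by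
    rw [← integral_finsetSum _ (fun n _ => hJ n)]
    have h1 : ∫ x, ∑ n ∈ F, B.indicator (fun _ : X => (1 : ℝ)) x * (r x n * (1 - r x n)) ∂ν ≤
        ∫ _x : X, M ∂ν := by
      refine integral_mono (integrable_finsetSum _ (fun n _ => hJ n)) (integrable_const _) (fun x => ?_)
      rw [← mul_sum, Set.indicator_apply]
      split_ifs with hx
      · rw [one_mul]
        refine le_trans (sum_le_sum (fun n _ => ?_)) (hBM x hx)
        have h3 := h01 x n
        nlinarith
      · rw [zero_mul]; exact hM0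
    refine h1.trans (le_of_eq ?_)
    simp
  have e4 : ∫⁻ ω in π ⁻¹' B, ENNReal.ofReal ((∑ n ∈ F, dev A π r n ω) ^ 2) ∂μ =
      ENNReal.ofReal (∫ ω, B.indicator (fun _ : X => (1 : ℝ)) (π ω) *
        (∑ n ∈ F, dev A π r n ω) ^ 2 ∂μ) := by
    rw [ofReal_integral_eq_lintegral_ofReal hI2, ← lintegral_indicator (hπ hB)]
    · refine lintegral_congr (fun ω => ?_)
      by_cases h : π ω ∈ B
      · rw [Set.indicator_of_mem (show ω ∈ π ⁻¹' B from h), Set.indicator_of_mem h, one_mul]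
      · rw [Set.indicator_of_notMem (show ω ∉ π ⁻¹' B from h), Set.indicator_of_notMem h, zero_mul,
          ENNReal.ofReal_zero]
    · exact Eventually.of_forall (fun ω =>
        mul_nonneg (Set.indicator_nonneg (fun _ _ => zero_le_one) _) (sq_nonneg _))
  rw [e4, e2]
  exact ENNReal.ofReal_le_ofReal e3

omit [MeasurableSpace Ω] in
theorem cnt_eq (U : Set ℕ) (N : ℕ) (ω : Ω) :
    (cnt U (A ω) N : ℝ) = ∑ n ∈ ind U N, chi A n ω := by
  unfold cnt chi
  rw [card_filter]
  push_cast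
  rfl

theorem cnt_mono (U S : Set ℕ) : Monotone (fun N : ℕ => (cnt U S N : ℝ)) := by
  classical
  intro M N h
  have h1 : ind U M ⊆ ind U N := by
    intro n hn
    simp only [ind, mem_filter, mem_range] at hn ⊢
    exact ⟨by omega, hn.2⟩
  have h2 : cnt U S M ≤ cnt U S N := card_le_card (filter_subset_filter _ h1)
  change (cnt U S M : ℝ) ≤ cnt U S N
  exact_mod_cast h2

/-- Job SLL. -/
theorem t_SLL : J_SLL := by
  classical
  intro X _ ν _ r hr h01 Ω _ μ _ A π hM U Λ C hΛm hΛt hC u hu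
  have hπ := hM.meas
  -- the scales
  have hex : ∀ j : ℕ, ∃ N : ℕ, (j : ℝ) ^ 2 ≤ Λ N := fun j =>
    (hΛt.eventually_ge_atTop ((j : ℝ) ^ 2)).exists
  let y : ℕ → ℕ := fun j => Nat.find (hex j)
  have hy1 : ∀ j : ℕ, (j : ℝ) ^ 2 ≤ Λ (y j) := fun j => Nat.find_spec (hex j)
  have hy2 : ∀ (j N : ℕ), (j : ℝ) ^ 2 ≤ Λ N → y j ≤ N := fun j N h => Nat.find_min' (hex j) h
  have hsq : Tendsto (fun j : ℕ => (j : ℝ) ^ 2) atTop atTop :=
    (tendsto_pow_atTop (by norm_num)).comp tendsto_natCast_atTop_atTop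
  have hy3 : ∀ᶠ j : ℕ in atTop, Λ (y j) ≤ (j : ℝ) ^ 2 + C := by
    filter_upwards [hsq.eventually_gt_atTop (Λ 0)] with j hj
    have h0 : y j ≠ 0 := by
      intro h
      have := hy1 j
      rw [h] at this
      linarith
    obtain ⟨k, hk⟩ := Nat.exists_eq_succ_of_ne_zero h0
    have h1 : ¬ (j : ℝ) ^ 2 ≤ Λ k := Nat.find_min (hex j) (by
      change k < y j
      omega)
    rw [hk]
    have := hC k
    rw [not_le] at h1
    change Λ (k + 1) ≤ _
    linarith
  have hyt : Tendsto y atTop atTop := by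
    rw [tendsto_atTop]
    intro N
    filter_upwards [hsq.eventually_gt_atTop (Λ N)] with j hj
    by_contra hcon
    rw [not_le] at hcon
    have := (hy1 j).trans (hΛm hcon.le)
    linarith
  -- the sets `B K`
  let R : X → ℕ → ℝ := fun x N => ∑ n ∈ ind U N, r x n
  have hRm : ∀ N, Measurable (fun x => R x N) := fun N =>
    Finset.measurable_sum _ (fun n _ => hr n)
  have hR0 : ∀ x N, 0 ≤ R x N := fun x N => sum_nonneg (fun n _ => (h01 x n).1)
  let B : ℕ → Set X := fun K => {x | ∀ N, R x N ≤ K * (|Λ N| + 1)}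
  have hBm : ∀ K, MeasurableSet (B K) := fun K => by
    have : B K = ⋂ N, {x | R x N ≤ K * (|Λ N| + 1)} := by
      ext x
      simp [B]
    rw [this]
    exact MeasurableSet.iInter (fun N => measurableSet_le (hRm N) measurable_const)
  have hBall : ∀ x, Tendsto (fun N : ℕ => R x N / Λ N) atTop (𝓝 (u x)) → ∃ K, x ∈ B K := by
    intro x hx
    have h1 : ∀ᶠ N : ℕ in atTop, R x N / Λ N < |u x| + 1 :=
      hx.eventually_lt_const (by have := le_abs_self (u x); linarith)
    obtain ⟨N₀, hN₀⟩ := eventually_atTop.1 (h1.and (hΛt.eventually_gt_atTop 0))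
    obtain ⟨K, hK⟩ := exists_nat_ge (max (|u x| + 1) (∑ M ∈ range (N₀ + 1), R x M))
    refine ⟨K, fun N => ?_⟩
    have hK1 := (le_max_left _ _).trans hK
    have hK2 := (le_max_right _ _).trans hK
    have h0 : (0 : ℝ) ≤ K := Nat.cast_nonneg K
    rcases le_total N₀ N with h | h
    · obtain ⟨h2, h3⟩ := hN₀ N h
      rw [div_lt_iff₀ h3] at h2
      have h4 : (|u x| + 1) * Λ N ≤ K * Λ N := mul_le_mul_of_nonneg_right hK1 h3.le
      have h5 : (K : ℝ) * Λ N ≤ K * (|Λ N| + 1) :=
        mul_le_mul_of_nonneg_left (by have := le_abs_self (Λ N); linarith) h0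
      linarith
    · have h2 : R x N ≤ ∑ M ∈ range (N₀ + 1), R x M :=
        single_le_sum (f := fun M => R x M) (fun M _ => hR0 x M) (mem_range.2 (by omega))
      have h3 : (K : ℝ) * 1 ≤ K * (|Λ N| + 1) :=
        mul_le_mul_of_nonneg_left (by have := abs_nonneg (Λ N); linarith) h0
      linarith
  -- the deviations
  let Z : ℕ → Ω → ℝ := fun N ω => ∑ n ∈ ind U N, dev A π r n ω
  have hdm : ∀ n, Measurable (dev A π r n) := fun n =>
    (chi_meas hM.rand n).sub ((hr n).comp hπ)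
  have hZm : ∀ N, Measurable (Z N) := fun N => Finset.measurable_sum _ (fun n _ => hdm n)
  have hZ : ∀ N ω, (cnt U (A ω) N : ℝ) = Z N ω + R (π ω) N := by
    intro N ω
    rw [cnt_eq, ← sum_add_distrib]
    refine sum_congr rfl (fun n _ => ?_)
    unfold dev
    ring
  have hdev : ∀ K : ℕ, ∀ᵐ ω ∂μ, π ω ∈ B K →
      Tendsto (fun j : ℕ => Z (y j) ω / Λ (y j)) atTop (𝓝 0) := by
    intro K
    have h1 : ∀ᵐ ω ∂(μ.restrict (π ⁻¹' B K)),
        ∑' j : ℕ, ENNReal.ofReal ((Z (y (j + 1)) ω / Λ (y (j + 1))) ^ 2) < ⊤ := by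
      refine ae_lt_top (Measurable.tsum (fun j =>
        (((hZm _).div_const _).pow_const 2).ennreal_ofReal)) ?_
      rw [lintegral_tsum (fun j => (((hZm _).div_const _).pow_const 2).ennreal_ofReal.aemeasurable)]
      have hb : ∀ j : ℕ, ∫⁻ ω in π ⁻¹' B K,
          ENNReal.ofReal ((Z (y (j + 1)) ω / Λ (y (j + 1))) ^ 2) ∂μ ≤
            ENNReal.ofReal (2 * K * (1 / ((j : ℝ) + 1) ^ 2)) := by
        intro j
        have hj := hy1 (j + 1)
        push_cast at hj
        have hj0 : (1 : ℝ) ≤ ((j : ℝ) + 1) ^ 2 := by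
          have : (0 : ℝ) ≤ j := Nat.cast_nonneg j
          nlinarith
        set L := Λ (y (j + 1)) with hL
        have hL1 : 1 ≤ L := hj0.trans hj
        have hL0 : 0 < L := by linarith
        have e1 : ∀ ω, ENNReal.ofReal ((Z (y (j + 1)) ω / L) ^ 2) =
            ENNReal.ofReal (1 / L ^ 2) * ENNReal.ofReal ((Z (y (j + 1)) ω) ^ 2) := by
          intro ω
          rw [← ENNReal.ofReal_mul (by positivity)]
          congr 1
          rw [div_pow]
          ring
        simp only [e1]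
        rw [lintegral_const_mul _ (((hZm _).pow_const 2).ennreal_ofReal)]
        have e2 := second hM hr h01 (hBm K) (ind U (y (j + 1))) (M := K * (L + 1))
          (by positivity) (fun x hx => by
            have := hx (y (j + 1))
            rwa [← hL, abs_of_pos hL0] at this)
        refine (mul_le_mul_right e2 _).trans ?_
        rw [← ENNReal.ofReal_mul (by positivity)]
        refine ENNReal.ofReal_le_ofReal ?_
        have hK0 : (0 : ℝ) ≤ K := Nat.cast_nonneg K
        have e3 : 1 / L ^ 2 * (K * (L + 1)) ≤ 2 * K * (1 / L) := by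
          rw [div_mul_eq_mul_div, mul_one_div, div_le_div_iff₀ (by positivity) hL0]
          have : K * L ≤ (K : ℝ) * L ^ 2 := mul_le_mul_of_nonneg_left (by nlinarith) hK0
          nlinarith
        refine e3.trans ?_
        refine mul_le_mul_of_nonneg_left ?_ (by positivity)
        exact one_div_le_one_div_of_le (by positivity) hj
      refine ne_top_of_le_ne_top ?_ (ENNReal.tsum_le_tsum hb)
      refine Summable.tsum_ofReal_ne_top ?_
      refine Summable.mul_left _ ?_
      have h2 := (summable_nat_add_iff 1).2 (Real.summable_one_div_nat_pow.2 (one_lt_two))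
      refine h2.congr (fun j => ?_)
      push_cast
      rfl
    rw [ae_restrict_iff' (hπ (hBm K))] at h1
    filter_upwards [h1] with ω hω hmem
    have h2 := ENNReal.tendsto_atTop_zero_of_tsum_ne_top (hω hmem).ne
    have h3 : Tendsto (fun j : ℕ => (Z (y (j + 1)) ω / Λ (y (j + 1))) ^ 2) atTop (𝓝 0) := by
      have h4 := (ENNReal.tendsto_toReal ENNReal.zero_ne_top).comp h2
      rw [ENNReal.toReal_zero] at h4
      refine h4.congr (fun j => ?_)
      simp only [Function.comp_apply]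
      exact ENNReal.toReal_ofReal (sq_nonneg _)
    have h5 : Tendsto (fun j : ℕ => Z (y (j + 1)) ω / Λ (y (j + 1))) atTop (𝓝 0) := by
      have h6 := (Real.continuous_sqrt.tendsto 0).comp h3
      rw [Real.sqrt_zero] at h6
      rw [tendsto_zero_iff_abs_tendsto_zero]
      refine h6.congr (fun j => ?_)
      simp only [Function.comp_apply]
      exact Real.sqrt_sq_eq_abs _
    exact (tendsto_add_atTop_iff_nat 1).1 h5
  -- conclusion
  have hu' : ∀ᵐ ω ∂μ, Tendsto (fun N : ℕ => R (π ω) N / Λ N) atTop (𝓝 (u (π ω))) := by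
    have h : ∀ᵐ x ∂(μ.map π), Tendsto (fun N : ℕ => R x N / Λ N) atTop (𝓝 (u x)) := by
      rw [hM.map]
      exact hu
    exact ae_of_ae_map hπ.aemeasurable h
  have hdev' := ae_all_iff.2 hdev
  filter_upwards [hu', hdev'] with ω h1 h2
  obtain ⟨K, hK⟩ := hBall _ h1
  have h3 := h2 K hK
  refine interp (cnt_mono U (A ω)) (fun n => Nat.cast_nonneg _) hΛm hΛt hy1 hy2 hy3 ?_
  have h4 := h3.add (h1.comp hyt)
  rw [zero_add] at h4
  refine h4.congr (fun j => ?_)
  simp only [Function.comp_apply]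
  rw [hZ, add_div]

end Pool.Agent.Q96.ME
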